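import Pool.Agent.Helper15.T8.Stmts

set_option autoImplicit false

/-!
MP_2f9829_co, T8: modules BAS (sums of degrees) and DCT (double counting).
-/

open Finset

namespace Pool.Agent.Helper66.T8

open Pool.Agent.Helper15.T8

theorem card_mem {n : ℕ} (e : Sym2 (Fin n)) (he : ¬ e.IsDiag) :
    ((univ : Finset (Fin n)).filter (fun v => v ∈ e)).card = 2 := by
  have : (univ : Finset (Fin n)).filter (fun v => v ∈ e) = e.toFinset := by
    ext v; simp
  rw [this]
  exact Sym2.card_toFinset_of_not_isDiag e he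

/-- Handshake. -/
theorem sum_dg {n : ℕ} (E : Finset (Sym2 (Fin n))) (hE : ∀ e ∈ E, ¬ e.IsDiag) :
    ∑ v, dg E v = 2 * E.card := by
  unfold dg
  simp only [Finset.card_filter]
  rw [Finset.sum_comm]
  have : ∀ e ∈ E, ∑ v : Fin n, (if v ∈ e then 1 else 0) = 2 := by
    intro e he
    rw [← Finset.card_filter]
    exact card_mem e (hE e he)
  rw [Finset.sum_congr rfl this, Finset.sum_const, smul_eq_mul, mul_comm]

theorem mem_GJ {n D : ℕ} {W : Finset (Fin n)} {j : ℕ} {E : Finset (Sym2 (Fin n))} :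
    E ∈ GJ n D W j ↔ ((∀ e ∈ E, ¬ e.IsDiag) ∧ (∀ v, dg E v ≤ D) ∧ ∀ v ∈ W, dg E v = 0) ∧
      E.card = j := by
  simp [GJ, GW]

theorem mem_RG {n D : ℕ} {E : Finset (Sym2 (Fin n))} :
    E ∈ RG n D ↔ (∀ e ∈ E, ¬ e.IsDiag) ∧ ∀ v, dg E v = D := by
  simp [RG]

theorem st_BAS : ST_BAS := by
  intro n D W j E hE
  obtain ⟨⟨h1, h2, h3⟩, h4⟩ := mem_GJ.1 hE
  have hs : ∑ v, dg E v = 2 * j := by rw [sum_dg E h1, h4]
  have hsplit : ∑ v ∈ Wᶜ, dg E v = 2 * j := by
    rw [← hs, ← Finset.sum_add_sum_compl W (fun v => dg E v), Finset.sum_eq_zero h3, zero_add]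
  have hc : (Wᶜ : Finset (Fin n)).card = n - W.card := by
    rw [Finset.card_compl, Fintype.card_fin]
  have hsum : ∑ v ∈ Wᶜ, (D - dg E v) + 2 * j = (n - W.card) * D := by
    rw [← hsplit, ← Finset.sum_add_distrib, ← hc, ← smul_eq_mul, ← Finset.sum_const]
    exact Finset.sum_congr rfl fun v _ => Nat.sub_add_cancel (h2 v)
  have hF : ∑ v ∈ Wᶜ, (D - dg E v) = FJ n D W j := by
    unfold FJ
    omega
  refine ⟨by omega, hF, ?_, hs⟩
  rw [← Finset.sum_add_sum_compl W (fun v => D - dg E v), hF]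
  have : ∑ v ∈ W, (D - dg E v) = D * W.card := by
    rw [Finset.sum_congr rfl (fun v hv => by rw [h3 v hv, Nat.sub_zero] : ∀ v ∈ W, D - dg E v = D),
      Finset.sum_const, smul_eq_mul, mul_comm]
  rw [this, add_comm]

theorem card_RG {n D : ℕ} {E : Finset (Sym2 (Fin n))} (hE : E ∈ RG n D) :
    E.card = n * D / 2 := by
  obtain ⟨h1, h2⟩ := mem_RG.1 hE
  have := sum_dg E h1
  rw [Finset.sum_congr rfl (fun v _ => h2 v), Finset.sum_const, Finset.card_univ,
    Fintype.card_fin, smul_eq_mul] at this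
  omega

theorem card_avoid {n D : ℕ} {W : Finset (Fin n)} (hW : W.card ≤ 1)
    {E : Finset (Sym2 (Fin n))} (hE : E ∈ RG n D) :
    (E.filter (fun e => ∀ v ∈ W, v ∉ e)).card = n * D / 2 - D * W.card := by
  obtain ⟨h1, h2⟩ := mem_RG.1 hE
  have hcard := card_RG hE
  rcases Nat.le_one_iff_eq_zero_or_eq_one.1 hW with h0 | h0
  · rw [Finset.card_eq_zero] at h0
    subst h0
    simp [hcard]
  · obtain ⟨w, rfl⟩ := Finset.card_eq_one.1 h0
    have hsplit := Finset.card_filter_add_card_filter_not (s := E) (fun e => w ∈ e)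
    have hd : (E.filter (fun e => w ∈ e)).card = D := h2 w
    have : E.filter (fun e => ∀ v ∈ ({w} : Finset (Fin n)), v ∉ e) =
        E.filter (fun e => ¬ w ∈ e) := by
      ext e; simp
    rw [this, Finset.card_singleton, mul_one]
    omega

theorem cnt {n D : ℕ} {W : Finset (Fin n)} (hW : W.card ≤ 1) (j : ℕ)
    {E' : Finset (Sym2 (Fin n))} (hE : E' ∈ RG n D) :
    ((GJ n D W j).filter (fun E => E ⊆ E')).card = (n * D / 2 - D * W.card).choose j := by
  have : (GJ n D W j).filter (fun E => E ⊆ E') =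
      Finset.powersetCard j (E'.filter (fun e => ∀ v ∈ W, v ∉ e)) := by
    ext E
    rw [Finset.mem_filter, mem_GJ, Finset.mem_powersetCard]
    obtain ⟨h1, h2⟩ := mem_RG.1 hE
    constructor
    · rintro ⟨⟨⟨a1, a2, a3⟩, a4⟩, a5⟩
      refine ⟨fun e he => Finset.mem_filter.2 ⟨a5 he, fun v hv hve => ?_⟩, a4⟩
      have := a3 v hv
      unfold dg at this
      rw [Finset.card_eq_zero, Finset.filter_eq_empty_iff] at this
      exact this he hve
    · rintro ⟨a1, a2⟩
      have hsub : E ⊆ E' := fun e he => (Finset.mem_filter.1 (a1 he)).1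
      refine ⟨⟨⟨fun e he => h1 e (hsub he), fun v => ?_, fun v hv => ?_⟩, a2⟩, hsub⟩
      · rw [← h2 v]
        exact Finset.card_le_card (Finset.filter_subset_filter _ hsub)
      · unfold dg
        rw [Finset.card_eq_zero, Finset.filter_eq_empty_iff]
        intro e he
        exact (Finset.mem_filter.1 (a1 he)).2 v hv
  rw [this, Finset.card_powersetCard, card_avoid hW hE]

theorem swap {n D : ℕ} (S : Finset (Finset (Sym2 (Fin n)))) :
    ∑ E ∈ S, cp n D E = ∑ E' ∈ RG n D, (S.filter (fun E => E ⊆ E')).card := by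
  unfold cp
  simp only [Finset.card_filter]
  exact Finset.sum_comm

theorem st_DCT : ST_DCT := by
  intro n D W B _ hW hB j
  constructor
  · rw [swap, Finset.sum_congr rfl (fun E' hE => cnt hW j hE), Finset.sum_const, smul_eq_mul]
  · rw [swap]
    have h1 : ∀ E' ∈ RG n D, (((GJ n D W j).filter B).filter (fun E => E ⊆ E')).card ≤
        if B E' then (n * D / 2 - D * W.card).choose j else 0 := by
      intro E' hE
      by_cases hBE : B E'
      · rw [if_pos hBE, ← cnt hW j hE]
        exact Finset.card_le_card (Finset.filter_subset_filter _ (Finset.filter_subset _ _))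
      · rw [if_neg hBE]
        apply le_of_eq
        rw [Finset.card_eq_zero, Finset.filter_eq_empty_iff]
        intro E hE2 hsub
        exact hBE (hB E E' hsub (Finset.mem_filter.1 hE2).2)
    calc ∑ E' ∈ RG n D, (((GJ n D W j).filter B).filter (fun E => E ⊆ E')).card ≤
        ∑ E' ∈ RG n D, if B E' then (n * D / 2 - D * W.card).choose j else 0 :=
          Finset.sum_le_sum h1
      _ = ((RG n D).filter B).card * (n * D / 2 - D * W.card).choose j := by
          rw [← Finset.sum_filter, Finset.sum_const, smul_eq_mul]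

end Pool.Agent.Helper66.T8
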