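import Pool.Agent.Helper15.T8.Stmts
import Pool.Agent.Helper66.T8.BAS

set_option autoImplicit false

/-!
MP_2f9829_co, T8: module UPC (upper bound for the number of completions).
-/

open Finset

namespace Pool.Agent.Helper66.T8

open Pool.Agent.Helper15.T8

theorem mem_GW0 {n D : ℕ} {E : Finset (Sym2 (Fin n))} :
    E ∈ GW n D ∅ ↔ (∀ e ∈ E, ¬ e.IsDiag) ∧ ∀ v, dg E v ≤ D := by
  simp [GW]

/-- Total deficiency. -/
theorem sum_def {n D : ℕ} {E : Finset (Sym2 (Fin n))} (hE : E ∈ GW n D ∅) :
    ∑ v, (D - dg E v) + 2 * E.card = n * D := by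
  obtain ⟨h1, h2⟩ := mem_GW0.1 hE
  rw [← sum_dg E h1, ← Finset.sum_add_distrib,
    Finset.sum_congr rfl (fun v _ => Nat.sub_add_cancel (h2 v)), Finset.sum_const,
    Finset.card_univ, Fintype.card_fin, smul_eq_mul]

theorem dg_insert {n : ℕ} {E : Finset (Sym2 (Fin n))} {e : Sym2 (Fin n)} (he : e ∉ E)
    (w : Fin n) : dg (insert e E) w = dg E w + if w ∈ e then 1 else 0 := by
  unfold dg
  rw [Finset.filter_insert]
  by_cases h : w ∈ e
  · rw [if_pos h, if_pos h, Finset.card_insert_of_notMem]
    exact fun h' => he (Finset.mem_filter.1 h').1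
  · rw [if_neg h, if_neg h, add_zero]

theorem dg_mono {n : ℕ} {E E' : Finset (Sym2 (Fin n))} (h : E ⊆ E') (w : Fin n) :
    dg E w ≤ dg E' w := Finset.card_le_card (Finset.filter_subset_filter _ h)

theorem dg_lt {n : ℕ} {E E' : Finset (Sym2 (Fin n))} (h : E ⊆ E') {e : Sym2 (Fin n)}
    (he' : e ∈ E') (he : e ∉ E) {w : Fin n} (hw : w ∈ e) : dg E w < dg E' w := by
  apply Finset.card_lt_card
  refine ⟨Finset.filter_subset_filter _ h, fun h2 => ?_⟩
  exact he (Finset.mem_filter.1 (h2 (Finset.mem_filter.2 ⟨he', hw⟩))).1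

theorem st_UPC : ST_UPC := by
  intro n D k
  induction k with
  | zero =>
    intro E hE hs
    have h0 := sum_def hE
    rw [hs] at h0
    have : (RG n D).filter (fun E' => E ⊆ E') ⊆ {E} := by
      intro E' hE'
      obtain ⟨h1, h2⟩ := Finset.mem_filter.1 hE'
      have h3 := sum_dg E' (mem_RG.1 h1).1
      rw [Finset.sum_congr rfl (fun v _ => (mem_RG.1 h1).2 v), Finset.sum_const,
        Finset.card_univ, Fintype.card_fin, smul_eq_mul] at h3
      rw [Finset.mem_singleton]
      exact (Finset.eq_of_subset_of_card_le h2 (by omega)).symm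
    unfold cp
    simpa [df] using Finset.card_le_card this
  | succ k ih =>
    intro E hE hs
    obtain ⟨h1, h2⟩ := mem_GW0.1 hE
    -- a deficient vertex
    obtain ⟨v, hv⟩ : ∃ v, 0 < D - dg E v := by
      by_contra hno
      push Not at hno
      have : ∑ v, (D - dg E v) = 0 := Finset.sum_eq_zero fun v _ => Nat.le_zero.1 (hno v)
      omega
    set U : Finset (Fin n) := univ.filter (fun u => u ≠ v ∧ dg E u < D ∧ s(v, u) ∉ E) with hU
    have hUc : U.card ≤ 2 * k + 1 := by
      have hvU : v ∉ U := by simp [hU]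
      have h3 : ∑ w ∈ insert v U, 1 ≤ ∑ w ∈ insert v U, (D - dg E w) := by
        refine Finset.sum_le_sum fun w hw => ?_
        rcases Finset.mem_insert.1 hw with rfl | hw
        · exact hv
        · have := (Finset.mem_filter.1 hw).2.2.1
          omega
      have h4 : ∑ w ∈ insert v U, (D - dg E w) ≤ ∑ w, (D - dg E w) :=
        Finset.sum_le_sum_of_subset (Finset.subset_univ _)
      rw [Finset.sum_const, smul_eq_mul, mul_one, Finset.card_insert_of_notMem hvU] at h3
      omega
    have hcov : (RG n D).filter (fun E' => E ⊆ E') ⊆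
        U.biUnion (fun u => (RG n D).filter (fun E' => insert s(v, u) E ⊆ E')) := by
      intro E' hE'
      obtain ⟨a1, a2⟩ := Finset.mem_filter.1 hE'
      obtain ⟨b1, b2⟩ := mem_RG.1 a1
      -- a new edge at `v`
      obtain ⟨e, he', he, hve⟩ : ∃ e, e ∈ E' ∧ e ∉ E ∧ v ∈ e := by
        by_contra hno
        push Not at hno
        have : dg E' v ≤ dg E v := by
          apply Finset.card_le_card
          intro e he
          obtain ⟨c1, c2⟩ := Finset.mem_filter.1 he
          refine Finset.mem_filter.2 ⟨?_, c2⟩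
          by_contra hc
          exact hno e c1 hc c2
        rw [b2 v] at this
        omega
      obtain ⟨u, rfl⟩ := Sym2.mem_iff_exists.1 hve
      have huv : u ≠ v := by
        rintro rfl
        exact b1 _ he' (by simp)
      rw [Finset.mem_biUnion]
      refine ⟨u, Finset.mem_filter.2 ⟨Finset.mem_univ _, huv, ?_, he⟩, Finset.mem_filter.2
        ⟨a1, Finset.insert_subset he' a2⟩⟩
      rw [← b2 u]
      exact dg_lt a2 he' he (Sym2.mem_mk_right v u)
    have hstep : ∀ u ∈ U, ((RG n D).filter (fun E' => insert s(v, u) E ⊆ E')).card ≤ df k := by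
      intro u hu
      obtain ⟨-, c1, c2, c3⟩ := Finset.mem_filter.1 hu
      have hGW : insert s(v, u) E ∈ GW n D ∅ := by
        rw [mem_GW0]
        refine ⟨fun e he => ?_, fun w => ?_⟩
        · rcases Finset.mem_insert.1 he with rfl | he
          · rw [Sym2.mk_isDiag_iff]
            exact fun h => c1 h.symm
          · exact h1 e he
        · rw [dg_insert c3]
          by_cases hw : w ∈ s(v, u)
          · rw [if_pos hw]
            rcases Sym2.mem_iff.1 hw with rfl | rfl
            · omega
            · omega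
          · rw [if_neg hw, add_zero]
            exact h2 w
      refine ih (insert s(v, u) E) hGW ?_
      have d1 := sum_def hGW
      have d2 := sum_def hE
      rw [Finset.card_insert_of_notMem c3] at d1
      omega
    unfold cp
    calc ((RG n D).filter (fun E' => E ⊆ E')).card ≤
        (U.biUnion (fun u => (RG n D).filter (fun E' => insert s(v, u) E ⊆ E'))).card :=
          Finset.card_le_card hcov
      _ ≤ ∑ u ∈ U, ((RG n D).filter (fun E' => insert s(v, u) E ⊆ E')).card :=
          Finset.card_biUnion_le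
      _ ≤ ∑ _u ∈ U, df k := Finset.sum_le_sum hstep
      _ = U.card * df k := by rw [Finset.sum_const, smul_eq_mul]
      _ ≤ (2 * k + 1) * df k := Nat.mul_le_mul_right _ hUc
      _ = df (k + 1) := by
          unfold df
          rw [Finset.prod_range_succ, mul_comm]

end Pool.Agent.Helper66.T8
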