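import Pool.Agent.Helper15.T8.Stmts
import Pool.Agent.Helper66.T8.UPC

set_option autoImplicit false

/-!
MP_2f9829_co, T8: module RT2 (addition of an edge).
-/

open Finset

namespace Pool.Agent.Helper66.T8

open Pool.Agent.Helper15.T8

/-- Neighbours. -/
theorem card_nb {n : ℕ} (E : Finset (Sym2 (Fin n))) (u : Fin n) :
    ((univ : Finset (Fin n)).filter (fun v => s(u, v) ∈ E)).card = dg E u := by
  unfold dg
  refine Finset.card_bij (fun v _ => s(u, v)) ?_ ?_ ?_
  · intro v hv
    exact Finset.mem_filter.2 ⟨(Finset.mem_filter.1 hv).2, Sym2.mem_mk_left u v⟩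
  · intro v _ v' _ h
    exact Sym2.congr_right.1 h
  · intro e he
    obtain ⟨h1, h2⟩ := Finset.mem_filter.1 he
    obtain ⟨v, rfl⟩ := Sym2.mem_iff_exists.1 h2
    exact ⟨v, Finset.mem_filter.2 ⟨Finset.mem_univ _, h1⟩, rfl⟩

theorem card_ordered {n : ℕ} (E : Finset (Sym2 (Fin n))) (hE : ∀ e ∈ E, ¬ e.IsDiag) :
    ((univ : Finset (Fin n × Fin n)).filter (fun p => s(p.1, p.2) ∈ E)).card = 2 * E.card := by
  rw [← sum_dg E hE, Finset.card_filter, Fintype.sum_prod_type]
  refine Finset.sum_congr rfl fun u _ => ?_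
  rw [← card_nb E u, Finset.card_filter]

theorem st_RT2 : ST_RT2 := by
  intro n D W j hD hj h2j hF
  set F : ℕ := FJ n D W j + 2 with hFdef
  set x : ℝ := ((F : ℕ) : ℝ) / D with hx
  have hDp : (0 : ℝ) < D := by exact_mod_cast hD
  have hxD : (D : ℝ) + 1 ≤ x := by
    rw [hx, le_div_iff₀ hDp]
    have : ((D * (D + 1) : ℕ) : ℝ) ≤ (F : ℝ) := by exact_mod_cast hF
    push_cast at this
    linarith
  -- the deficient vertices
  let S : Finset (Sym2 (Fin n)) → Finset (Fin n) := fun E => Wᶜ.filter (fun v => dg E v < D)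
  let T : Finset (Sym2 (Fin n)) → Finset (Fin n × Fin n) := fun E =>
    univ.filter (fun p => p.1 ∈ S E ∧ p.2 ∈ S E ∧ p.1 ≠ p.2 ∧ s(p.1, p.2) ∉ E)
  have hS : ∀ E ∈ GJ n D W (j - 1), x ≤ ((S E).card : ℝ) := by
    intro E hE
    obtain ⟨b1, b2, -, -⟩ := st_BAS n D W (j - 1) E hE
    have hFF : FJ n D W (j - 1) = F := by
      rw [hFdef]; unfold FJ; omega
    rw [hFF] at b2
    have h1 : ∑ v ∈ Wᶜ, (D - dg E v) ≤ ∑ v ∈ S E, D := by
      calc ∑ v ∈ Wᶜ, (D - dg E v) = ∑ v ∈ S E, (D - dg E v) := by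
            symm
            apply Finset.sum_filter_of_ne
            intro v _ hne
            omega
        _ ≤ ∑ v ∈ S E, D := Finset.sum_le_sum fun v _ => Nat.sub_le _ _
    rw [b2, Finset.sum_const, smul_eq_mul] at h1
    rw [hx, div_le_iff₀ hDp]
    exact_mod_cast h1
  have hT : ∀ E ∈ GJ n D W (j - 1), x * (x - 1 - D) ≤ ((T E).card : ℝ) := by
    intro E hE
    obtain ⟨⟨h1, h2, h3⟩, h4⟩ := mem_GJ.1 hE
    have hs := hS E hE
    have hrow : ∀ u ∈ S E, ((S E).card : ℝ) - 1 - D ≤
        (((univ : Finset (Fin n)).filter (fun v => v ∈ S E ∧ u ≠ v ∧ s(u, v) ∉ E)).card : ℝ) := by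
      intro u _
      have hsub : S E ⊆ (univ : Finset (Fin n)).filter (fun v => v ∈ S E ∧ u ≠ v ∧ s(u, v) ∉ E) ∪
          ({u} ∪ (univ : Finset (Fin n)).filter (fun v => s(u, v) ∈ E)) := by
        intro v hv
        rw [Finset.mem_union, Finset.mem_union, Finset.mem_singleton]
        by_cases c1 : v = u
        · exact Or.inr (Or.inl c1)
        · by_cases c2 : s(u, v) ∈ E
          · exact Or.inr (Or.inr (Finset.mem_filter.2 ⟨Finset.mem_univ _, c2⟩))
          · exact Or.inl (Finset.mem_filter.2 ⟨Finset.mem_univ _, hv, fun h => c1 h.symm, c2⟩)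
      have hc := (Finset.card_le_card hsub).trans (Finset.card_union_le _ _)
      have hc2 : (({u} : Finset (Fin n)) ∪
          (univ : Finset (Fin n)).filter (fun v => s(u, v) ∈ E)).card ≤ 1 + D := by
        refine (Finset.card_union_le _ _).trans ?_
        rw [Finset.card_singleton, card_nb]
        have := h2 u
        omega
      have hc3 : (S E).card ≤
          ((univ : Finset (Fin n)).filter (fun v => v ∈ S E ∧ u ≠ v ∧ s(u, v) ∉ E)).card +
            (1 + D) := by omega
      have hc4 : ((S E).card : ℝ) ≤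
          (((univ : Finset (Fin n)).filter (fun v => v ∈ S E ∧ u ≠ v ∧ s(u, v) ∉ E)).card : ℝ) +
            (1 + D) := by exact_mod_cast hc3
      linarith
    have hcard : ((T E).card : ℝ) = ∑ u ∈ S E,
        (((univ : Finset (Fin n)).filter (fun v => v ∈ S E ∧ u ≠ v ∧ s(u, v) ∉ E)).card : ℝ) := by
      have : (T E).card = ∑ u ∈ S E,
        ((univ : Finset (Fin n)).filter (fun v => v ∈ S E ∧ u ≠ v ∧ s(u, v) ∉ E)).card := by
        simp only [T]
        rw [Finset.card_filter, Fintype.sum_prod_type, ← Finset.sum_subset (Finset.subset_univ (S E))]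
        · refine Finset.sum_congr rfl fun u hu => ?_
          rw [Finset.card_filter]
          refine Finset.sum_congr rfl fun v _ => ?_
          simp only [hu, true_and]
        · intro u _ hu
          refine Finset.sum_eq_zero fun v _ => ?_
          rw [if_neg]
          rintro ⟨h, -⟩
          exact hu h
      rw [this]
      push_cast
      rfl
    have h5 : ((S E).card : ℝ) * (((S E).card : ℝ) - 1 - D) ≤ ((T E).card : ℝ) := by
      rw [hcard]
      calc ((S E).card : ℝ) * (((S E).card : ℝ) - 1 - D) =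
          ∑ _u ∈ S E, (((S E).card : ℝ) - 1 - D) := by
            rw [Finset.sum_const, nsmul_eq_mul]
        _ ≤ _ := Finset.sum_le_sum hrow
    have h6 : x * (x - 1 - D) ≤ ((S E).card : ℝ) * (((S E).card : ℝ) - 1 - D) := by
      have a1 : 0 ≤ x - 1 - D := by linarith
      have a2 : 0 ≤ x := by linarith
      exact mul_le_mul hs (by linarith) a1 (by linarith)
    exact h6.trans h5
  -- the injection
  set A : Finset (Finset (Sym2 (Fin n)) × (Fin n × Fin n)) :=
    (GJ n D W (j - 1) ×ˢ univ).filter (fun q => q.2 ∈ T q.1) with hA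
  set B : Finset (Finset (Sym2 (Fin n)) × (Fin n × Fin n)) :=
    (GJ n D W j ×ˢ univ).filter (fun q => s(q.2.1, q.2.2) ∈ q.1) with hB
  have hAcard : (A.card : ℝ) = ∑ E ∈ GJ n D W (j - 1), ((T E).card : ℝ) := by
    have : A.card = ∑ E ∈ GJ n D W (j - 1), (T E).card := by
      rw [hA, Finset.card_filter, Finset.sum_product]
      refine Finset.sum_congr rfl fun E _ => ?_
      rw [← Finset.card_filter]
      congr 1
      ext p
      simp
    rw [this]; push_cast; rfl
  have hBcard : B.card = 2 * j * (GJ n D W j).card := by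
    rw [hB, Finset.card_filter, Finset.sum_product]
    have : ∀ E ∈ GJ n D W j, ∑ p : Fin n × Fin n, (if s(p.1, p.2) ∈ E then 1 else 0) = 2 * j := by
      intro E hE
      obtain ⟨⟨h1, -, -⟩, h4⟩ := mem_GJ.1 hE
      rw [← Finset.card_filter, card_ordered E h1, h4]
    rw [Finset.sum_congr rfl this, Finset.sum_const, smul_eq_mul, mul_comm]
  have hAB : A.card ≤ B.card := by
    refine Finset.card_le_card_of_injOn (fun q => (insert s(q.2.1, q.2.2) q.1, q.2)) ?_ ?_
    · rintro ⟨E, u, v⟩ hq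
      rw [Finset.mem_coe, hA, Finset.mem_filter, Finset.mem_product] at hq
      obtain ⟨⟨hE, -⟩, hT2⟩ := hq
      obtain ⟨-, hu, hv, huv, hne⟩ := Finset.mem_filter.1 hT2
      obtain ⟨hu1, hu2⟩ := Finset.mem_filter.1 hu
      obtain ⟨hv1, hv2⟩ := Finset.mem_filter.1 hv
      simp only at hE hu1 hu2 hv1 hv2 huv hne
      obtain ⟨⟨h1, h2, h3⟩, h4⟩ := mem_GJ.1 hE
      rw [Finset.mem_coe, hB, Finset.mem_filter, Finset.mem_product]
      refine ⟨⟨?_, Finset.mem_univ _⟩, Finset.mem_insert_self _ _⟩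
      rw [mem_GJ]
      refine ⟨⟨fun e he => ?_, fun w => ?_, fun w hw => ?_⟩, ?_⟩
      · rcases Finset.mem_insert.1 he with rfl | he
        · rw [Sym2.mk_isDiag_iff]; exact huv
        · exact h1 e he
      · rw [dg_insert hne]
        by_cases hw : w ∈ s(u, v)
        · rw [if_pos hw]
          rcases Sym2.mem_iff.1 hw with rfl | rfl
          · omega
          · omega
        · rw [if_neg hw, add_zero]
          exact h2 w
      · rw [dg_insert hne, h3 w hw, if_neg]
        intro h
        rcases Sym2.mem_iff.1 h with rfl | rfl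
        · exact (Finset.mem_compl.1 hu1) hw
        · exact (Finset.mem_compl.1 hv1) hw
      · rw [Finset.card_insert_of_notMem hne, h4]
        omega
    · rintro ⟨E, p⟩ hq ⟨E2, p2⟩ hq2 heq
      rw [Finset.mem_coe, hA, Finset.mem_filter] at hq hq2
      have hn1 : s(p.1, p.2) ∉ E := (Finset.mem_filter.1 hq.2).2.2.2.2
      have hn2 : s(p2.1, p2.2) ∉ E2 := (Finset.mem_filter.1 hq2.2).2.2.2.2
      simp only [Prod.mk.injEq] at heq
      obtain ⟨g1, g2⟩ := heq
      subst g2
      have : E = E2 := by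
        rw [← Finset.erase_insert hn1, g1, Finset.erase_insert hn2]
      rw [this]
  calc x * (x - 1 - D) * ((GJ n D W (j - 1)).card : ℝ) =
      ∑ _E ∈ GJ n D W (j - 1), x * (x - 1 - D) := by
        rw [Finset.sum_const, nsmul_eq_mul, mul_comm]
    _ ≤ ∑ E ∈ GJ n D W (j - 1), ((T E).card : ℝ) := Finset.sum_le_sum hT
    _ = (A.card : ℝ) := hAcard.symm
    _ ≤ (B.card : ℝ) := by exact_mod_cast hAB
    _ = 2 * j * ((GJ n D W j).card : ℝ) := by rw [hBcard]; push_cast; ring

end Pool.Agent.Helper66.T8
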